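import Pool.Agent.Q279.Sun.Two

/-!
# Q2 of MP_d2c11a_nt

`Q279.Sun.s n = (6n)! n! / (2 (2n+1) (3n)! ((2n)!)^2)` (file `Pool.Agent.Q279.Sun.Defs`).
-/

set_option autoImplicit false

namespace Pool.Agent.Results.MP_d2c11a_nt.SequenceT

open Q279.Sun

/-- There is a sequence `t_1, t_2, …` of positive integers such that, for every real `x` with
`|x| ≤ 1/(6√3)`, both series below converge (absolutely) and
`(1/12) cos((2/3) arccos(6√3 x)) = 1/24 + ∑_{k≥0} s_k x^{2k+1} - ∑_{k≥1} t_k x^{2k}`, and moreover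
`p ∣ t_p + 2` for every prime `p`. -/
theorem result : ∃ t : ℕ → ℕ, (∀ k, 1 ≤ k → 0 < t k) ∧
    (∀ x : ℝ, |x| ≤ 1 / (6 * √3) →
      (Summable fun k : ℕ => (s k : ℝ) * x ^ (2 * k + 1)) ∧
      (Summable fun k : ℕ => (t (k + 1) : ℝ) * x ^ (2 * (k + 1))) ∧
      1 / 12 * Real.cos (2 / 3 * Real.arccos (6 * √3 * x)) =
        1 / 24 + ∑' k : ℕ, (s k : ℝ) * x ^ (2 * k + 1)
          - ∑' k : ℕ, (t (k + 1) : ℝ) * x ^ (2 * (k + 1))) ∧
    ∀ p : ℕ, p.Prime → p ∣ t p + 2 :=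
  ⟨t, t_pos, expansion, dvd_t_add_two⟩

end Pool.Agent.Results.MP_d2c11a_nt.SequenceT
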