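import Pool.Agent.Q279.Sun.One

/-!
# Q1 of MP_d2c11a_nt

`Q279.Sun.s n = (6n)! n! / (2 (2n+1) (3n)! ((2n)!)^2)` and `Q279.Sun.S p = ∑_{k=1}^{p-1} s_k/108^k`
are rational numbers; `Q279.Sun.CongrMod p x y` is congruence modulo `p` in `ℤ_(p)`
(file `Pool.Agent.Q279.Sun.Defs`).
-/

set_option autoImplicit false

namespace Pool.Agent.Results.MP_d2c11a_nt.TruncatedSum

open Q279.Sun

/-- For every prime `p > 3`: `S_p ≡ 0 mod p` if `p ≡ 1, 11 mod 12` and `S_p ≡ -1 mod p` if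
`p ≡ 5, 7 mod 12`. -/
theorem result (p : ℕ) (hp : p.Prime) (h3 : 3 < p) :
    ((p % 12 = 1 ∨ p % 12 = 11) → CongrMod p (S p) 0) ∧
    ((p % 12 = 5 ∨ p % 12 = 7) → CongrMod p (S p) (-1)) :=
  main_one p hp h3

end Pool.Agent.Results.MP_d2c11a_nt.TruncatedSum
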